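import Pool.Agent.W566.MZ.Stmts

set_option autoImplicit false

namespace W289.MZ

open scoped Classical in
/-- The character of order two with kernel a subgroup of index two. -/
noncomputable def chiOf {P : Type} [Group P] (K : Subgroup P) (hK : K.index = 2) :
    P →* Multiplicative (ZMod 2) where
  toFun g := if g ∈ K then 1 else Multiplicative.ofAdd (1 : ZMod 2)
  map_one' := by simp [K.one_mem]
  map_mul' a b := by
    have h := Subgroup.mul_mem_iff_of_index_two hK (a := a) (b := b)
    by_cases ha : a ∈ K <;> by_cases hb : b ∈ K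
    · simp [ha, hb, h.mpr (by simp [ha, hb])]
    · have : a * b ∉ K := fun hh => by simpa [ha, hb] using h.mp hh
      simp [ha, hb, this]
    · have : a * b ∉ K := fun hh => by simpa [ha, hb] using h.mp hh
      simp [ha, hb, this]
    · have h2 : a * b ∈ K := h.mpr (by simp [ha, hb])
      simp only [h2, ha, hb, if_true, if_false]
      rw [← ofAdd_add]
      have : (1 : ZMod 2) + 1 = 0 := by decide
      rw [this]; rfl

theorem chiOf_eq_one {P : Type} [Group P] (K : Subgroup P) (hK : K.index = 2) (g : P) :
    chiOf K hK g = 1 ↔ g ∈ K := by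
  classical
  change (if g ∈ K then (1 : Multiplicative (ZMod 2)) else Multiplicative.ofAdd (1 : ZMod 2)) = 1 ↔ _
  by_cases h : g ∈ K
  · simp [h]
  · simp only [h, if_false, iff_false]
    decide

theorem stmFrat : MZ.StmFrat := by
  intro P _ _ _ _ _ hP ι c σ hchi N hNo hc hσ
  by_contra hN
  have : Fact (Nat.Prime 2) := ⟨Nat.prime_two⟩
  have : Finite (P ⧸ N) := Subgroup.quotient_finite_of_isOpen N hNo
  have : N.FiniteIndex := Subgroup.finiteIndex_of_finite_quotient
  set U : Subgroup P := N.normalCore with hU
  have : U.FiniteIndex := inferInstance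
  have hUo : IsOpen (U : Set P) := by
    have : IsClosed (U : Set P) := Subgroup.normalCore_isClosed N (Subgroup.isClosed_of_isOpen N hNo)
    exact Subgroup.isOpen_of_isClosed_of_finiteIndex U this
  obtain ⟨e, he⟩ := hP U inferInstance hUo
  have : Finite (P ⧸ U) := inferInstance
  have hNU : (N.map (QuotientGroup.mk' U)).comap (QuotientGroup.mk' U) = N := by
    rw [Subgroup.comap_map_eq, QuotientGroup.ker_mk']
    exact sup_eq_left.mpr (Subgroup.normalCore_le N)
  have hN' : N.map (QuotientGroup.mk' U) ≠ ⊤ := by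
    intro h
    apply hN
    rw [← hNU, h, Subgroup.comap_top]
  obtain ⟨n, hn, hn2⟩ : ∃ n ≤ e, Nat.card (N.map (QuotientGroup.mk' U)) = 2 ^ n := by
    have := Subgroup.card_subgroup_dvd_card (N.map (QuotientGroup.mk' U))
    rw [he] at this
    exact (Nat.dvd_prime_pow Nat.prime_two).mp this
  have hne : n < e := by
    rcases hn.lt_or_eq with h | h
    · exact h
    · exfalso
      apply hN'
      apply Subgroup.eq_top_of_card_eq
      rw [hn2, he, h]
  obtain ⟨K, hK, hNK⟩ := Sylow.exists_subgroup_card_pow_prime_le (p := 2) (n := n) (m := e - 1)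
    (by rw [he]; exact pow_dvd_pow 2 (by omega)) (N.map (QuotientGroup.mk' U)) hn2 (by omega)
  have hKi : K.index = 2 := by
    have h1 := K.card_mul_index
    rw [hK, he] at h1
    have h2 : 2 ^ e = 2 ^ (e - 1) * 2 := by
      rw [← pow_succ]; congr 1; omega
    rw [h2] at h1
    exact Nat.eq_of_mul_eq_mul_left (by positivity) h1
  set K' : Subgroup P := K.comap (QuotientGroup.mk' U) with hK'
  have hK'i : K'.index = 2 := by
    rw [hK', Subgroup.index_comap_of_surjective _ (QuotientGroup.mk'_surjective U), hKi]
  have hNK' : N ≤ K' := by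
    rw [← hNU]
    exact Subgroup.comap_mono hNK
  have hker : (chiOf K' hK'i).ker = K' := by
    ext g
    rw [MonoidHom.mem_ker, chiOf_eq_one]
  have h1 := hchi (chiOf K' hK'i) (by
      rw [hker]
      exact Subgroup.isOpen_mono hNK' hNo)
    (fun i => (chiOf_eq_one K' hK'i _).mpr (hNK' (hc i)))
    ((chiOf_eq_one K' hK'i _).mpr (hNK' hσ))
  have h2 : K' = ⊤ := by
    rw [← hker, h1]
    exact MonoidHom.ker_one
  rw [h2, Subgroup.index_top] at hK'i
  omega


end W289.MZ
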